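import Pool.Agent.Helper66.SB.Goals

/-!
PROJECT SB, packet SB-BR: truncated branch of a curve.
-/

set_option autoImplicit false

open Module MvPolynomial

noncomputable section

namespace Pool.Agent.Helper83.SB

open Pool.Agent.Helper66.SB Helper18.Shgh

theorem br_X0 (R : Fin 2 → ℂ) (φ : Polynomial ℂ) :
    br R φ (X 0) = Polynomial.C (R 0) + Polynomial.X := by
  unfold br
  rw [aeval_X]
  rfl

theorem br_X1 (R : Fin 2 → ℂ) (φ : Polynomial ℂ) :
    br R φ (X 1) = Polynomial.C (R 1) + φ := by
  unfold br
  rw [aeval_X]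
  rfl

theorem br_C (R : Fin 2 → ℂ) (φ : Polynomial ℂ) (a : ℂ) :
    br R φ (C a) = Polynomial.C a := by
  unfold br
  rw [aeval_C]
  rfl

theorem br_coeff_zero (R : Fin 2 → ℂ) (φ : Polynomial ℂ) (h : φ.coeff 0 = 0) (G : R2) :
    (br R φ G).coeff 0 = eval R G := by
  induction G using MvPolynomial.induction_on with
  | C a => rw [br_C, eval_C, Polynomial.coeff_C_zero]
  | add p q hp hq => rw [map_add, map_add, Polynomial.coeff_add, hp, hq]
  | mul_X p i hp =>
    rw [map_mul, map_mul, Polynomial.mul_coeff_zero, hp, eval_X]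
    fin_cases i
    · simp only [Fin.zero_eta]
      rw [br_X0]
      simp
    · simp only [Fin.mk_one]
      rw [br_X1]
      simp [h]

theorem taylor (R : Fin 2 → ℂ) (φ : Polynomial ℂ) (c : ℂ) (M : ℕ) (hM : 1 ≤ M) (G : R2) :
    Polynomial.X ^ (M + 1) ∣ br R (φ + Polynomial.C c * Polynomial.X ^ M) G - br R φ G -
      Polynomial.C c * Polynomial.X ^ M * br R φ (pderiv 1 G) := by
  induction G using MvPolynomial.induction_on with
  | C a =>
    rw [br_C, br_C, pderiv_C, map_zero, mul_zero, sub_self, sub_zero]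
    exact dvd_zero _
  | add p q hp hq =>
    have := dvd_add hp hq
    refine this.trans (dvd_of_eq ?_)
    simp only [map_add]
    ring
  | mul_X p i hp =>
    obtain ⟨r, hr⟩ := hp
    fin_cases i
    · simp only [Fin.zero_eta]
      have h1 : pderiv 1 (p * X 0 : R2) = pderiv 1 p * X 0 := by
        rw [Derivation.leibniz, pderiv_X_of_ne (by decide : (0 : Fin 2) ≠ 1), smul_zero, zero_add,
          smul_eq_mul, mul_comm]
      rw [h1, map_mul, map_mul, map_mul, br_X0, br_X0]
      refine ⟨r * (Polynomial.C (R 0) + Polynomial.X), ?_⟩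
      have : ∀ a b d e f : Polynomial ℂ, a - b - d = e →
          a * f - b * f - d * f = e * f := by
        intro a b d e f h
        rw [← h]
        ring
      have h2 := this _ _ _ _ (Polynomial.C (R 0) + Polynomial.X) hr
      rw [mul_assoc (Polynomial.X ^ (M + 1)) r] at h2
      rw [← h2]
      ring
    · simp only [Fin.mk_one]
      have h1 : pderiv 1 (p * X 1 : R2) = p + pderiv 1 p * X 1 := by
        rw [Derivation.leibniz, pderiv_X_self, smul_eq_mul, smul_eq_mul, mul_one, mul_comm]
      rw [h1, map_add, map_mul, map_mul, map_mul, br_X1, br_X1]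
      obtain ⟨k, rfl⟩ : ∃ k, M = k + 1 := ⟨M - 1, by omega⟩
      refine ⟨r * (Polynomial.C (R 1) + φ) + Polynomial.C c * (Polynomial.X ^ (k + 1) * r +
        Polynomial.C c * Polynomial.X ^ k * br R φ (pderiv 1 p)), ?_⟩
      have h2 : br R (φ + Polynomial.C c * Polynomial.X ^ (k + 1)) p = br R φ p +
          Polynomial.C c * Polynomial.X ^ (k + 1) * br R φ (pderiv 1 p) +
          Polynomial.X ^ (k + 1 + 1) * r := by
        rw [← hr]
        ring
      rw [h2]
      ring

theorem gBR : G_BR := by
  intro F R hF hFy M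
  induction M with
  | zero => exact ⟨0, by simp, by simp⟩
  | succ M ih =>
    rcases Nat.eq_zero_or_pos M with h0 | h0
    · subst h0
      refine ⟨0, by simp, ?_⟩
      rw [zero_add, pow_one, Polynomial.X_dvd_iff, br_coeff_zero R 0 (by simp), hF]
    · obtain ⟨φ, hφ, q, hq⟩ := ih
      set c : ℂ := -(q.coeff 0) / eval R (pderiv 1 F) with hc
      refine ⟨φ + Polynomial.C c * Polynomial.X ^ M, ?_, ?_⟩
      · rw [Polynomial.coeff_add, hφ, Polynomial.coeff_C_mul, Polynomial.coeff_X_pow]
        simp [h0.ne]
      · have h1 := taylor R φ c M h0 F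
        have h2 : Polynomial.X ∣ q + Polynomial.C c * br R φ (pderiv 1 F) := by
          rw [Polynomial.X_dvd_iff, Polynomial.coeff_add, Polynomial.coeff_C_mul,
            br_coeff_zero R φ hφ, hc]
          field_simp
          ring
        have h3 : Polynomial.X ^ (M + 1) ∣ br R φ F +
            Polynomial.C c * Polynomial.X ^ M * br R φ (pderiv 1 F) := by
          obtain ⟨s, hs⟩ := h2
          refine ⟨s, ?_⟩
          rw [hq, pow_succ, mul_assoc (Polynomial.X ^ M) Polynomial.X s, ← hs]
          ring
        have h4 := dvd_add h1 h3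
        refine h4.trans (dvd_of_eq ?_)
        ring

end Pool.Agent.Helper83.SB
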